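import Pool.Agent.L0h38.GI.Stm3
import Mathlib.Combinatorics.SimpleGraph.Acyclic
import Mathlib.Combinatorics.SimpleGraph.Metric

/-!
# GI2: finite groups have property FA

The sum of the squared distances to an orbit is strictly convex along geodesics.
-/

set_option autoImplicit false

namespace Pool.Agent.L0h55.GI

open SimpleGraph Pool.Agent.L0h38.GI

section tree
variable {V : Type} {T : SimpleGraph V}

/-- the neighbour nearer to `q` is unique -/
lemma near_unique (hT : T.IsTree) {x y z q : V} (hx : T.Adj y x) (hz : T.Adj y z)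
    (h1 : T.dist x q + 1 = T.dist y q) (h2 : T.dist z q + 1 = T.dist y q) : x = z := by
  obtain ⟨p, hp, hpl⟩ := hT.connected.exists_path_of_dist x q
  obtain ⟨r, hr, hrl⟩ := hT.connected.exists_path_of_dist z q
  have e1 : (Walk.cons hx p).IsPath := Walk.isPath_of_length_eq_dist _ (by
    rw [Walk.length_cons, hpl, h1])
  have e2 : (Walk.cons hz r).IsPath := Walk.isPath_of_length_eq_dist _ (by
    rw [Walk.length_cons, hrl, h2])
  have e3 := (hT.isAcyclic.subsingleton_path _ _).elim ⟨_, e1⟩ ⟨_, e2⟩
  have e4 : (Walk.cons hx p).snd = (Walk.cons hz r).snd := by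
    rw [Subtype.mk.injEq] at e3
    rw [e3]
  simpa using e4

/-- adjacent vertices have different distances -/
lemma dist_ne (hT : T.IsTree) {x y q : V} (h : T.Adj x y) : T.dist x q ≠ T.dist y q := by
  intro he
  obtain ⟨p, hp, hpl⟩ := hT.connected.exists_path_of_dist x q
  obtain ⟨r, hr, hrl⟩ := hT.connected.exists_path_of_dist y q
  by_cases hy : y ∈ p.support
  · classical
    have h1 := congrArg Walk.length (p.take_spec hy)
    rw [Walk.length_append] at h1
    have h2 := dist_le (p.dropUntil y hy)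
    have h3 : 0 < (p.takeUntil y hy).length := by
      rw [Nat.pos_iff_ne_zero]
      intro h4
      exact h.ne (Walk.eq_of_length_eq_zero h4)
    omega
  · have h1 : (Walk.cons h.symm p).IsPath := hp.cons hy
    have e3 := (hT.isAcyclic.subsingleton_path _ _).elim ⟨_, h1⟩ ⟨_, hr⟩
    rw [Subtype.mk.injEq] at e3
    have h2 := congrArg Walk.length e3
    rw [Walk.length_cons] at h2
    omega

/-- strict convexity of the squared distance -/
lemma sq_convex (hT : T.IsTree) {x y z q : V} (hx : T.Adj y x) (hz : T.Adj y z) (hxz : x ≠ z) :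
    2 * (T.dist y q : ℤ) ^ 2 + 2 ≤ (T.dist x q : ℤ) ^ 2 + (T.dist z q : ℤ) ^ 2 := by
  have hc := hT.connected
  have d1 := dist_ne hT (q := q) hx
  have d2 := dist_ne hT (q := q) hz
  have t1 := hc.dist_triangle (u := y) (v := x) (w := q)
  have t2 := hc.dist_triangle (u := x) (v := y) (w := q)
  have t3 := hc.dist_triangle (u := y) (v := z) (w := q)
  have t4 := hc.dist_triangle (u := z) (v := y) (w := q)
  rw [dist_eq_one_iff_adj.2 hx] at t1
  rw [dist_eq_one_iff_adj.2 hx.symm] at t2
  rw [dist_eq_one_iff_adj.2 hz] at t3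
  rw [dist_eq_one_iff_adj.2 hz.symm] at t4
  have hn : ¬ (T.dist x q + 1 = T.dist y q ∧ T.dist z q + 1 = T.dist y q) :=
    fun h => hxz (near_unique hT hx hz h.1 h.2)
  rcases (show T.dist x q = T.dist y q + 1 ∨ T.dist x q + 1 = T.dist y q by omega) with a | a <;>
  rcases (show T.dist z q = T.dist y q + 1 ∨ T.dist z q + 1 = T.dist y q by omega) with b | b
  · rw [a, b]
    push_cast
    nlinarith [(Nat.cast_nonneg (T.dist y q) : (0 : ℤ) ≤ _)]
  · rw [a, ← b]
    push_cast
    nlinarith
  · rw [b, ← a]
    push_cast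
    nlinarith
  · exact absurd ⟨a, b⟩ hn

/-- no triangles -/
lemma no_tri (hT : T.IsTree) {x y z : V} (h1 : T.Adj x y) (h2 : T.Adj y z) (h3 : T.Adj z x) :
    False :=
  dist_ne hT (q := x) h2 (by rw [dist_eq_one_iff_adj.2 h1.symm, dist_eq_one_iff_adj.2 h3])

end tree

variable {V : Type} {T : SimpleGraph V} {X : Type} [Group X] [MulAction X V]

lemma dist_smul_le (hc : T.Connected) (ha : ∀ (g : X) (v w : V), T.Adj v w → T.Adj (g • v) (g • w))
    (g : X) (v w : V) : T.dist (g • v) (g • w) ≤ T.dist v w := by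
  obtain ⟨p, hp⟩ := hc.exists_walk_length_eq_dist v w
  let f : T →g T := ⟨fun v => g • v, fun h => ha g _ _ h⟩
  have h1 := dist_le (p.map f)
  rw [Walk.length_map, hp] at h1
  exact h1

lemma dist_smul (hc : T.Connected) (ha : ∀ (g : X) (v w : V), T.Adj v w → T.Adj (g • v) (g • w))
    (g : X) (v w : V) : T.dist (g • v) (g • w) = T.dist v w := by
  refine le_antisymm (dist_smul_le hc ha g v w) ?_
  have := dist_smul_le hc ha g⁻¹ (g • v) (g • w)
  rwa [inv_smul_smul, inv_smul_smul] at this

/-- **FFA** -/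
theorem t_FFA : S_FFA := by
  intro X _ hX V T _ hT ha hi
  have hc := hT.connected
  obtain ⟨p⟩ := hc.nonempty
  have := Fintype.ofFinite X
  let F : V → ℕ := fun v => ∑ g : X, T.dist v (g • p) ^ 2
  have hF : ∀ (h : X) (v : V), F (h • v) = F v := by
    intro h v
    show ∑ g : X, T.dist (h • v) (g • p) ^ 2 = ∑ g : X, T.dist v (g • p) ^ 2
    have e := Fintype.sum_equiv (Equiv.mulLeft h) (fun g : X => T.dist v (g • p) ^ 2)
      (fun g : X => T.dist (h • v) (g • p) ^ 2) (fun g => by
        rw [Equiv.coe_mulLeft, mul_smul, dist_smul hc ha])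
    exact e.symm
  have hconv : ∀ x y z : V, T.Adj y x → T.Adj y z → x ≠ z →
      2 * (F y : ℤ) + 2 ≤ F x + F z := by
    intro x y z hx hz hxz
    have h1 : ∑ g : X, (2 * (T.dist y (g • p) : ℤ) ^ 2 + 2) ≤
        ∑ g : X, ((T.dist x (g • p) : ℤ) ^ 2 + (T.dist z (g • p) : ℤ) ^ 2) :=
      Finset.sum_le_sum fun g _ => sq_convex hT hx hz hxz
    rw [Finset.sum_add_distrib, Finset.sum_add_distrib, ← Finset.mul_sum, Finset.sum_const,
      Finset.card_univ, nsmul_eq_mul] at h1
    have h2 : 0 < Fintype.card X := Fintype.card_pos_iff.2 ⟨1⟩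
    have h3 : ∀ v, (F v : ℤ) = ∑ g : X, (T.dist v (g • p) : ℤ) ^ 2 := by
      intro v
      show ((∑ g : X, T.dist v (g • p) ^ 2 : ℕ) : ℤ) = _
      push_cast
      rfl
    rw [h3, h3, h3]
    have h4 : (1 : ℤ) ≤ Fintype.card X := by exact_mod_cast h2
    linarith
  -- a minimiser
  obtain ⟨v, hv⟩ : ∃ v : V, ∀ w, F v ≤ F w := by
    obtain ⟨m, hm⟩ := WellFounded.has_min (measure F).wf Set.univ ⟨p, trivial⟩
    exact ⟨m, fun w => not_lt.1 (hm.2 w trivial)⟩
  -- two minimisers are equal or adjacent
  have hadj : ∀ w, (∀ u, F w ≤ F u) → v ≠ w → T.Adj v w := by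
    intro w hw hne
    by_contra hnadj
    obtain ⟨r, hr, hrl⟩ := hc.exists_path_of_dist v w
    have hn2 : 1 < r.length := by
      rw [hrl]
      exact hc.one_lt_dist_of_ne_of_not_adj hne hnadj
    have key : ∀ i : ℕ, i + 1 ≤ r.length →
        (i : ℤ) ≤ (F (r.getVert (i + 1)) : ℤ) - F (r.getVert i) := by
      intro i
      induction i with
      | zero =>
        intro _
        have := hv (r.getVert 1)
        rw [Walk.getVert_zero]
        have h4 : (F v : ℤ) ≤ F (r.getVert (0 + 1)) := by exact_mod_cast this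
        rw [Nat.cast_zero]
        linarith
      | succ i ih =>
        intro hi1
        have h1 := ih (by omega)
        have a1 : T.Adj (r.getVert (i + 1)) (r.getVert i) :=
          (r.adj_getVert_succ (i := i) (by omega)).symm
        have a2 : T.Adj (r.getVert (i + 1)) (r.getVert (i + 1 + 1)) :=
          r.adj_getVert_succ (i := i + 1) (by omega)
        have a3 : r.getVert i ≠ r.getVert (i + 1 + 1) := by
          intro h
          have h5 : i = i + 1 + 1 := hr.getVert_injOn (by
            show i ≤ r.length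
            omega) (by
            show i + 1 + 1 ≤ r.length
            omega) h
          omega
        have h2 := hconv _ _ _ a1 a2 a3
        push_cast
        linarith
    have h1 := key (r.length - 1) (by omega)
    have e : r.length - 1 + 1 = r.length := by omega
    rw [e, Walk.getVert_length] at h1
    have h2 := hw (r.getVert (r.length - 1))
    have h3 : (F w : ℤ) ≤ F (r.getVert (r.length - 1)) := by exact_mod_cast h2
    have h4 : (1 : ℤ) ≤ ((r.length - 1 : ℕ) : ℤ) := by
      have : 1 ≤ r.length - 1 := by omega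
      exact_mod_cast this
    linarith
  refine ⟨v, fun g => ?_⟩
  by_contra hne
  have h1 : T.Adj v (g • v) := hadj (g • v) (fun u => by rw [hF]; exact hv u) (fun h => hne h.symm)
  have h2 : T.Adj (g • v) (g • g • v) := ha g _ _ h1
  by_cases h3 : v = g • g • v
  · exact hi g v (g • v) h1 ⟨rfl, h3.symm⟩
  · have h4 : T.Adj v (g • g • v) := hadj (g • g • v) (fun u => by rw [hF, hF]; exact hv u) h3
    exact no_tri hT h1 h2 h4.symm

end Pool.Agent.L0h55.GI
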