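import Pool.Agent.L0h55.GI.ZMT

/-!
# Project GI, module UNQ: the labelled graph is determined by the group
-/

set_option autoImplicit false

namespace Pool.Agent.L0h55.GI

open Pool.Agent.L0h38.GI

section

variable {V W : Type} {Γ : SimpleGraph V} {Δ : SimpleGraph W} {G : V → Type} {H : W → Type}
  [∀ v, Group (G v)] [∀ w, Group (H w)]

/-- conjugate vertex groups are equal -/
lemma vtx_conj {v w : V} (hne : ∃ x : G v, x ≠ 1) (u : GrP Γ G)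
    (h : ∀ x : G v, ∃ x' : G w, inj Γ G v x = u * inj Γ G w x' * u⁻¹) : w = v := by
  obtain ⟨x, hx⟩ := hne
  obtain ⟨x', hx'⟩ := h x
  by_contra hwv
  have h1 := congrArg (fun t => toPi t v) hx'
  simp only [map_mul, map_inv, Pi.mul_apply, Pi.inv_apply] at h1
  rw [toPi_inj_same, toPi_inj_ne (fun h => hwv h.symm), mul_one, mul_inv_cancel] at h1
  exact hx h1

/-- the maps on the FA vertices are inverse to each other -/
lemma s_inv (hFAZ : S_FAZ) (hG : ∀ v, Ok (G v)) (e : GrP Γ G ≃* GrP Δ H) {s : V → W} {s' : W → V}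
    (hs : Vtx e s) (hs' : Vtx e.symm s') {v : V} (hv : FA (G v)) : s' (s v) = v := by
  obtain ⟨h1, g, hg⟩ := hs.1 v hv
  obtain ⟨h2, g', hg'⟩ := hs'.1 (s v) h1
  apply vtx_conj (ok_FA hFAZ (hG v) hv).2 (e.symm g * g')
  intro x
  obtain ⟨y, hy⟩ := (hg (inj Γ G v x)).1 ⟨x, rfl⟩
  obtain ⟨z, hz⟩ := (hg' (inj Δ H (s v) y)).1 ⟨y, rfl⟩
  refine ⟨z, ?_⟩
  rw [hz, hy, map_mul, map_mul, map_inv, MulEquiv.symm_apply_apply]
  group

/-- the vertex groups are isomorphic -/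
lemma vtx_iso (hRET : S_RET) (e : GrP Γ G ≃* GrP Δ H) {s : V → W} (hs : Vtx e s) {v : V}
    (hv : FA (G v)) : Nonempty (G v ≃* H (s v)) := by
  obtain ⟨-, g, hg⟩ := hs.1 v hv
  have i1 := (hRET V Γ G ∅ ∅).2.2.2.2.1 v
  have i2 := (hRET W Δ H ∅ ∅).2.2.2.2.1 (s v)
  obtain ⟨E, hE⟩ : ∃ E : GrP Γ G ≃* GrP Δ H, ∀ y, E y = g⁻¹ * e y * g := by
    refine ⟨e.trans (MulAut.conj g⁻¹), fun y => ?_⟩
    rw [MulEquiv.trans_apply, MulAut.conj_apply, inv_inv]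
  have h : (inj Γ G v).range.map E.toMonoidHom = (inj Δ H (s v)).range := by
    ext z
    rw [Subgroup.mem_map]
    constructor
    · rintro ⟨y, hy, rfl⟩
      have h1 := (hg y).1 hy
      rw [← hE] at h1
      exact h1
    · intro hz
      refine ⟨E.symm z, ?_, ?_⟩
      · rw [hg, ← hE, MulEquiv.apply_symm_apply]
        exact hz
      · show E (E.symm z) = z
        rw [MulEquiv.apply_symm_apply]
  exact ⟨(MonoidHom.ofInjective i1).trans ((E.subgroupMap _).trans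
    ((MulEquiv.subgroupCongr h).trans (MonoidHom.ofInjective i2).symm))⟩

end

/-- **UNQ** -/
theorem t_UNQ (hVTX : S_VTX) (hZMT : S_ZMT) (hSYL : S_SYL) (hFAZ : S_FAZ) (hRET : S_RET) :
    S_UNQ := by
  classical
  rintro V W _ _ Γ Δ G H _ _ hG hH ⟨e⟩
  obtain ⟨s, hs⟩ := hVTX V W Γ Δ G H hG hH e
  obtain ⟨s', hs'⟩ := hVTX W V Δ Γ H G hH hG e.symm
  have : Fintype (VZ G) := Fintype.ofFinite _
  have : Fintype (VZ H) := Fintype.ofFinite _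
  obtain ⟨π, hπ1, hπ2⟩ := hSYL _ _ _ _ _ _ _ (hZMT V W Γ Δ G H hG hH e s hs)
  have hl : ∀ v, FA (G v) → s' (s v) = v := fun v hv => s_inv hFAZ hG e hs hs' hv
  have hr : ∀ w, FA (H w) → s (s' w) = w := fun w hw => by
    have hs2 : Vtx e.symm.symm s := hs
    exact s_inv hFAZ hH e.symm hs' hs2 hw
  have cG : ∀ v, (FA (G v) ∧ ¬ IsZ (G v)) ∨ IsZ (G v) := by
    intro v
    rcases hG v with ⟨h, -, -⟩ | h
    · exact Or.inl ⟨h, fun h' => not_FA_Z hFAZ h h'⟩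
    · exact Or.inr h
  have cH : ∀ v, (FA (H v) ∧ ¬ IsZ (H v)) ∨ IsZ (H v) := by
    intro v
    rcases hH v with ⟨h, -, -⟩ | h
    · exact Or.inl ⟨h, fun h' => not_FA_Z hFAZ h h'⟩
    · exact Or.inr h
  obtain ⟨f, hf1, hf2⟩ : ∃ f : V → W, (∀ v (h : IsZ (G v)), f v = (π ⟨v, h⟩).1) ∧
      ∀ v, ¬ IsZ (G v) → f v = s v :=
    ⟨fun v => if h : IsZ (G v) then (π ⟨v, h⟩).1 else s v, fun v h => dif_pos h,
      fun v h => dif_neg h⟩
  obtain ⟨f', hf1', hf2'⟩ : ∃ f' : W → V, (∀ v (h : IsZ (H v)), f' v = (π.symm ⟨v, h⟩).1) ∧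
      ∀ v, ¬ IsZ (H v) → f' v = s' v :=
    ⟨fun v => if h : IsZ (H v) then (π.symm ⟨v, h⟩).1 else s' v, fun v h => dif_pos h,
      fun v h => dif_neg h⟩
  have left : ∀ v, f' (f v) = v := by
    intro v
    rcases cG v with ⟨h1, h2⟩ | h2
    · rw [hf2 v h2]
      have h3 := (hs.1 v h1).1
      rw [hf2' _ (fun h => not_FA_Z hFAZ h3 h), hl v h1]
    · rw [hf1 v h2, hf1' _ (π ⟨v, h2⟩).2]
      simp
  have right : ∀ w, f (f' w) = w := by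
    intro w
    rcases cH w with ⟨h1, h2⟩ | h2
    · rw [hf2' w h2]
      have h3 := (hs'.1 w h1).1
      rw [hf2 _ (fun h => not_FA_Z hFAZ h3 h), hr w h1]
    · rw [hf1' w h2, hf1 _ (π.symm ⟨w, h2⟩).2]
      simp
  have hFZ : ∀ v i (h : IsZ (G i)), FA (G v) → (Δ.Adj (s v) (π ⟨i, h⟩).1 ↔ Γ.Adj v i) := by
    intro v i h hv
    exact (hπ2 ⟨v, hv⟩ ⟨i, h⟩).symm
  have hadj : ∀ v w, Δ.Adj (f v) (f w) ↔ Γ.Adj v w := by
    intro v w
    rcases cG v with ⟨h1, h2⟩ | h2 <;> rcases cG w with ⟨h3, h4⟩ | h4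
    · rw [hf2 v h2, hf2 w h4]
      refine ⟨fun h => ?_, fun h => hs.2 v w h1 h3 h⟩
      have h5 := hs'.2 _ _ (hs.1 v h1).1 (hs.1 w h3).1 h
      rwa [hl v h1, hl w h3] at h5
    · rw [hf2 v h2, hf1 w h4]
      exact hFZ v w h4 h1
    · rw [hf1 v h2, hf2 w h4, Δ.adj_comm, Γ.adj_comm]
      exact hFZ w v h2 h3
    · rw [hf1 v h2, hf1 w h4]
      exact (hπ1 ⟨v, h2⟩ ⟨w, h4⟩).symm
  refine ⟨⟨⟨f, f', left, right⟩, fun {v w} => hadj v w⟩, fun v => ?_⟩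
  show Nonempty (G v ≃* H (f v))
  rcases cG v with ⟨h1, h2⟩ | h2
  · rw [hf2 v h2]
    exact vtx_iso hRET e hs h1
  · rw [hf1 v h2]
    exact ⟨(cz (⟨v, h2⟩ : VZ G)).trans (cz (π ⟨v, h2⟩)).symm⟩

end Pool.Agent.L0h55.GI
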