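import Pool.Agent.L0h38.GI.Stm

/-!
# Project GI, module ZMT: the linear isomorphism between the infinite cyclic vertices
-/

set_option autoImplicit false

namespace Pool.Agent.L0h55.GI

open Pool.Agent.L0h38.GI Multiplicative

section

variable {V W : Type} {Γ : SimpleGraph V} {Δ : SimpleGraph W} {G : V → Type} {H : W → Type}
  [∀ v, Group (G v)] [∀ w, Group (H w)]

/-- coordinates of the infinite cyclic vertex groups -/
noncomputable def cz (v : VZ G) : G v ≃* Multiplicative ℤ := v.2.some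

/-- generators of the infinite cyclic vertex groups -/
noncomputable def gz (v : VZ G) : G v := (cz v).symm (ofAdd 1)

/-- a homomorphism to `ℤ` is determined by the values at the generators -/
lemma hom_eq (hFAZ : S_FAZ) [Fintype (VZ G)] (hG : ∀ v, Ok (G v))
    (f : GrP Γ G →* Multiplicative ℤ) (y : GrP Γ G) :
    (f y).toAdd = ∑ i : VZ G, (f (inj Γ G i (gz i))).toAdd * (cz i (toPi y i)).toAdd := by
  classical
  obtain ⟨R, hR⟩ : ∃ R : GrP Γ G →* Multiplicative ℤ, ∀ y, R y = ofAdd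
      (∑ i : VZ G, (f (inj Γ G i (gz i))).toAdd * (cz i (toPi y i)).toAdd) := by
    refine ⟨MonoidHom.mk' (fun y => ofAdd
      (∑ i : VZ G, (f (inj Γ G i (gz i))).toAdd * (cz i (toPi y i)).toAdd)) ?_, fun y => rfl⟩
    intro a b
    rw [← ofAdd_add, ← Finset.sum_add_distrib]
    congr 1
    refine Finset.sum_congr rfl fun i _ => ?_
    rw [map_mul, Pi.mul_apply, map_mul, toAdd_mul, mul_add]
  have key : f = R := by
    apply gp_ext
    intro v x
    rcases hG v with ⟨hFA, -, -⟩ | hZ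
    · have h1 := hFAZ (G v) hFA (f.comp (inj Γ G v)) x
      have h2 := hFAZ (G v) hFA (R.comp (inj Γ G v)) x
      rw [MonoidHom.comp_apply] at h1 h2
      rw [h1, h2]
    · rw [hR]
      apply toAdd.injective
      rw [toAdd_ofAdd, Finset.sum_eq_single (⟨v, hZ⟩ : VZ G)]
      · show _ = _ * (cz (⟨v, hZ⟩ : VZ G) (toPi (inj Γ G v x) v)).toAdd
        rw [toPi_inj_same]
        have h3 : x = gz (⟨v, hZ⟩ : VZ G) ^ (cz (⟨v, hZ⟩ : VZ G) x).toAdd := by
          apply (cz (⟨v, hZ⟩ : VZ G)).injective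
          rw [map_zpow]
          unfold gz
          rw [MulEquiv.apply_symm_apply, ← ofAdd_zsmul, smul_eq_mul, mul_one, ofAdd_toAdd]
        conv_lhs => rw [h3]
        rw [map_zpow, map_zpow, toAdd_zpow, smul_eq_mul, mul_comm]
      · intro b _ hb
        have h4 : toPi (inj Γ G v x) b = 1 :=
          toPi_inj_ne (fun h => hb (Subtype.ext h)) x
        rw [h4, map_one, toAdd_one, mul_zero]
      · intro h
        exact absurd (Finset.mem_univ _) h
  have h5 := hR y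
  rw [← key] at h5
  rw [h5, toAdd_ofAdd]

/-- the matrix of an isomorphism -/
noncomputable def TM (e : GrP Γ G ≃* GrP Δ H) : Matrix (VZ H) (VZ G) ℤ :=
  fun j i => (cz j (toPi (e (inj Γ G i (gz i))) j)).toAdd

lemma TM_mul (hFAZ : S_FAZ) [Fintype (VZ G)] [DecidableEq (VZ H)]
    (hG : ∀ v, Ok (G v)) (e : GrP Γ G ≃* GrP Δ H) : TM e * TM e.symm = 1 := by
  ext j j'
  rw [Matrix.mul_apply]
  have h := hom_eq hFAZ hG (Γ := Γ)
    ((cz j).toMonoidHom.comp ((Pi.evalMonoidHom H j.1).comp (toPi.comp e.toMonoidHom)))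
    (e.symm (inj Δ H j' (gz j')))
  have h1 : ∑ i : VZ G, TM e j i * TM e.symm i j' =
      (cz j (toPi (e (e.symm (inj Δ H j' (gz j')))) j)).toAdd := h.symm
  rw [h1, MulEquiv.apply_symm_apply]
  by_cases hj : j = j'
  · subst hj
    rw [Matrix.one_apply_eq, toPi_inj_same]
    unfold gz
    rw [MulEquiv.apply_symm_apply, toAdd_ofAdd]
  · rw [Matrix.one_apply_ne hj, toPi_inj_ne (fun h => hj (Subtype.ext h)), map_one, toAdd_one]

lemma TM_adj (hHEI : S_HEI) (e : GrP Γ G ≃* GrP Δ H) (i k : VZ G) (hik : Γ.Adj i k) (c d : VZ H)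
    (hcd : c ≠ d) (hn : ¬ Δ.Adj c d) : TM e c i * TM e d k = TM e d i * TM e c k := by
  have h1 : Commute (e (inj Γ G i (gz i))) (e (inj Γ G k (gz k))) :=
    (inj_comm hik (gz i) (gz k)).map e
  have h2 := hHEI W Δ H c.1 d.1 (fun h => hcd (Subtype.ext h)) hn (cz c).toMonoidHom
    (cz d).toMonoidHom _ _ h1
  have h3 : TM e c i * TM e d k = TM e c k * TM e d i := h2
  rw [h3, mul_comm]

lemma not_FA_Z (hFAZ : S_FAZ) {X : Type} [Group X] (h1 : FA X) (h2 : IsZ X) : False := by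
  obtain ⟨c⟩ := h2
  have h3 := hFAZ X h1 c.toMonoidHom (c.symm (ofAdd 1))
  have h4 : c (c.symm (ofAdd 1)) = 1 := h3
  rw [MulEquiv.apply_symm_apply] at h4
  have h5 := congrArg toAdd h4
  rw [toAdd_ofAdd, toAdd_one] at h5
  exact one_ne_zero h5

lemma ok_FA (hFAZ : S_FAZ) {X : Type} [Group X] (h : Ok X) (h1 : FA X) :
    Cless X ∧ ∃ x : X, x ≠ 1 := by
  rcases h with ⟨-, h2, h3, -⟩ | h2
  · exact ⟨h2, h3⟩
  · exact (not_FA_Z hFAZ h1 h2).elim

end

/-- **ZMT** -/
theorem t_ZMT (hCEN : S_CEN) (hHEI : S_HEI) (hFAZ : S_FAZ) (hRET : S_RET) : S_ZMT := by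
  intro V W _ _ Γ Δ G H _ _ _ _ _ _ hG hH e s hs
  refine ⟨{ T := TM e, T' := TM e.symm, h1 := TM_mul hFAZ hG e, h2 := ?_,
            a1 := fun i k hik c d hcd hn => TM_adj hHEI e i k hik c d hcd hn,
            a2 := fun i k hik c d hcd hn => TM_adj hHEI e.symm i k hik c d hcd hn,
            s1 := ?_, s2 := ?_ }⟩
  · exact TM_mul hFAZ hH e.symm
  · rintro ⟨k, hk⟩ i hi c hc
    have hi' : Γ.Adj k i := hi
    have hc' : ¬ Δ.Adj (s k) c := hc
    obtain ⟨hk', g, hg⟩ := hs.1 k hk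
    obtain ⟨hcl, hne⟩ := ok_FA hFAZ (hH (s k)) hk'
    have h1 : g⁻¹ * e (inj Γ G i (gz i)) * g ∈ P Δ H (Δ.neighborSet (s k)) := by
      apply hCEN W Δ H (s k) hcl hne
      intro x
      obtain ⟨y, hy⟩ : ∃ y, y = e.symm (g * inj Δ H (s k) x * g⁻¹) := ⟨_, rfl⟩
      have hey : e y = g * inj Δ H (s k) x * g⁻¹ := by rw [hy, MulEquiv.apply_symm_apply]
      have h2 : g⁻¹ * e y * g = inj Δ H (s k) x := by rw [hey]; group
      have h3 : y ∈ (inj Γ G k).range := (hg y).2 ⟨x, h2.symm⟩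
      obtain ⟨x', hx'⟩ := h3
      have h4 : Commute (e (inj Γ G i (gz i))) (e y) := by
        rw [← hx']
        exact (inj_comm hi'.symm (gz i) x').map e
      rw [← h2]
      have h5 := h4.eq
      show g⁻¹ * e (inj Γ G i (gz i)) * g * (g⁻¹ * e y * g) =
        g⁻¹ * e y * g * (g⁻¹ * e (inj Γ G i (gz i)) * g)
      calc g⁻¹ * e (inj Γ G i (gz i)) * g * (g⁻¹ * e y * g) =
          g⁻¹ * (e (inj Γ G i (gz i)) * e y) * g := by group
        _ = g⁻¹ * (e y * e (inj Γ G i (gz i))) * g := by rw [h5]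
        _ = _ := by group
    have h6 := (hRET W Δ H (Δ.neighborSet (s k)) ∅).2.2.2.2.2 _ h1 c hc'
    rw [map_mul, map_mul, map_inv, Pi.mul_apply, Pi.mul_apply, Pi.inv_apply] at h6
    have h7 : toPi (e (inj Γ G i (gz i))) c = 1 := by
      have h8 := congrArg (fun t => toPi g c.1 * t * (toPi g c.1)⁻¹) h6
      simpa [mul_assoc] using h8
    show (cz c (toPi (e (inj Γ G i (gz i))) c)).toAdd = 0
    rw [h7, map_one, toAdd_one]
  · rintro ⟨k, hk⟩ i hi c hc
    have hi' : Δ.Adj (s k) i := hi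
    have hc' : ¬ Γ.Adj k c := hc
    obtain ⟨hk', g, hg⟩ := hs.1 k hk
    obtain ⟨hcl, hne⟩ := ok_FA hFAZ (hG k) hk
    have h1 : e.symm (g * inj Δ H i (gz i) * g⁻¹) ∈ P Γ G (Γ.neighborSet k) := by
      apply hCEN V Γ G k hcl hne
      intro x
      obtain ⟨x', hx'⟩ := (hg (inj Γ G k x)).1 ⟨x, rfl⟩
      have h2 : e (inj Γ G k x) = g * inj Δ H (s k) x' * g⁻¹ := by rw [hx']; group
      have h3 : Commute (g * inj Δ H i (gz i) * g⁻¹) (e (inj Γ G k x)) := by
        rw [h2]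
        have h4 := (inj_comm hi'.symm (gz i) x').eq
        show g * inj Δ H i (gz i) * g⁻¹ * (g * inj Δ H (s k) x' * g⁻¹) =
          g * inj Δ H (s k) x' * g⁻¹ * (g * inj Δ H i (gz i) * g⁻¹)
        calc g * inj Δ H i (gz i) * g⁻¹ * (g * inj Δ H (s k) x' * g⁻¹) =
            g * (inj Δ H i (gz i) * inj Δ H (s k) x') * g⁻¹ := by group
          _ = g * (inj Δ H (s k) x' * inj Δ H i (gz i)) * g⁻¹ := by rw [h4]
          _ = _ := by group
      have h5 := h3.map e.symm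
      rwa [MulEquiv.symm_apply_apply] at h5
    have h6 := (hRET V Γ G (Γ.neighborSet k) ∅).2.2.2.2.2 _ h1 c hc'
    rw [map_mul, map_mul, map_inv, map_mul, map_mul, map_inv, Pi.mul_apply, Pi.mul_apply,
      Pi.inv_apply] at h6
    have h7 : toPi (e.symm (inj Δ H i (gz i))) c = 1 := by
      have h8 := congrArg (fun t => (toPi (e.symm g) c.1)⁻¹ * t * (toPi (e.symm g) c.1)) h6
      simpa [mul_assoc] using h8
    show (cz c (toPi (e.symm (inj Δ H i (gz i))) c)).toAdd = 0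
    rw [h7, map_one, toAdd_one]

end Pool.Agent.L0h55.GI
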